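import Pool.Agent.QSN.StmtsB
import Pool.Agent.Helper28_QSX.LGM
import Pool.Agent.Helper59_QSX.RLG
import Pool.Agent.Helper77_QSX.NRE
import Pool.Agent.Helper67_QSX.SPT
import Pool.Agent.Helper49_QSX.FCP
import Pool.Agent.Helper99_QSX.RDM

set_option autoImplicit false

/-! # Row GZE of squad QSN: the weight zero part -/

namespace Pool.Agent.QSN.H47

open Matrix Finset Pool.Agent.QSX Filter

section kp

variable {R : Type} [CommRing R] {m : ℕ} (q : Fin m → Fin m → Prop)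

theorem kp_of {g : Matrix (Fin m) (Fin m) R} {i l : Fin m} (h : i = l ∨ q i l) :
    kp q g i l = g i l := by
  unfold kp
  exact if_pos h

theorem kp_not {g : Matrix (Fin m) (Fin m) R} {i l : Fin m} (h : ¬ (i = l ∨ q i l)) :
    kp q g i l = 0 := by
  unfold kp
  exact if_neg h

theorem kp_kp (g : Matrix (Fin m) (Fin m) R) : kp q (kp q g) = kp q g := by
  ext i l
  by_cases h : i = l ∨ q i l
  · rw [kp_of q h]
  · rw [kp_not q h, kp_not q h]

theorem part_of {V : Type} (P : V → Fin m → ℝ) (g : Matrix (Fin m) (Fin m) R) {i l : Fin m}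
    (h : ∀ a, P a i - P a l = 0) : part P (fun _ => 0) g i l = g i l := by
  unfold part
  exact if_pos h

theorem part_not {V : Type} (P : V → Fin m → ℝ) (g : Matrix (Fin m) (Fin m) R) {i l : Fin m}
    (h : ¬ ∀ a, P a i - P a l = 0) : part P (fun _ => 0) g i l = 0 := by
  unfold part
  exact if_neg h

theorem kp_part {V : Type} (P : V → Fin m → ℝ) (g : Matrix (Fin m) (Fin m) R) :
    kp (fun i l => ∀ a, P a i - P a l = 0) g = part P (fun _ => 0) g := by
  ext i l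
  by_cases h : ∀ a, P a i - P a l = 0
  · rw [kp_of _ (Or.inr h), part_of P g h]
  · have h' : ¬ (i = l ∨ ∀ a, P a i - P a l = 0) := by
      rintro (h1 | h1)
      · exact h fun a => by rw [h1, sub_self]
      · exact h h1
    rw [kp_not _ h', part_not P g h]

theorem part_su {V : Type} (P : V → Fin m → ℝ) {g : Matrix (Fin m) (Fin m) R} (hg : SU g) :
    SU (part P (fun _ => 0) g) := by
  intro i l hil
  by_cases h : ∀ a, P a i - P a l = 0
  · rw [part_of P g h]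
    exact hg i l hil
  · exact part_not P g h

end kp

/-- the algebraic part -/
theorem alg {F : Type} [CommRing F] [Algebra ℝ F] {m : ℕ} (r q : Fin m → Fin m → Prop)
    (rtr : ∀ i j k, i < j → j < k → r i j → r j k → r i k)
    (face : ∀ i j k, i < j → j < k → r i j → r j k → (q i k ↔ q i j ∧ q j k))
    (A B A' B' C D C' D' : Matrix (Fin m) (Fin m) F)
    (hAB : A * B = 1) (hBA : B * A = 1) (hAB' : A' * B' = 1) (hBA' : B' * A' = 1)
    (hCD : C * D = 1) (hDC : D * C = 1) (hCD' : C' * D' = 1) (hDC' : D' * C' = 1)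
    (hA : Sp r A) (hA' : Sp r A')
    (hC : C = mexp (kp q (mlog A))) (hC' : C' = mexp (kp q (mlog A')))
    (i l : Fin m) (hil : i < l) (hq : q i l) : (C * B * A' * D') i l = 0 := by
  have lgm := Pool.Agent.QSX.H28.lgm
  have spt := Pool.Agent.QSX.H67.spt
  obtain ⟨G, π, hG, hπ, hπG, hkp⟩ := Pool.Agent.QSX.H49.fcp spt F m r q rtr face
  have key : ∀ v : Matrix (Fin m) (Fin m) F, Sp r v → mexp (kp q (mlog v)) = kp q v := by
    intro v hv
    have h1 := (spt F m r rtr).2.2 v hv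
    have h2 := hkp (mlog v) h1.1 h1.2
    rw [((lgm F m).2 v hv.1).2] at h2
    exact h2.symm
  rw [key A hA] at hC
  rw [key A' hA'] at hC'
  let U : (Matrix (Fin m) (Fin m) F)ˣ := ⟨A, B, hAB, hBA⟩
  let U' : (Matrix (Fin m) (Fin m) F)ˣ := ⟨A', B', hAB', hBA'⟩
  let W : (Matrix (Fin m) (Fin m) F)ˣ := ⟨C, D, hCD, hDC⟩
  let W' : (Matrix (Fin m) (Fin m) F)ˣ := ⟨C', D', hCD', hDC'⟩
  have UG : U ∈ G := by
    rw [hG]
    exact hA
  have UG' : U' ∈ G := by
    rw [hG]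
    exact hA'
  have WU : W = π ⟨U, UG⟩ := by
    refine Units.ext ?_
    rw [hπ]
    exact hC
  have WU' : W' = π ⟨U', UG'⟩ := by
    refine Units.ext ?_
    rw [hπ]
    exact hC'
  have ππ : ∀ g : G, π ⟨π g, hπG g⟩ = π g := by
    intro g
    refine Units.ext ?_
    rw [hπ, hπ]
    exact kp_kp q _
  let h : G := ⟨π ⟨U, UG⟩, hπG _⟩ * (⟨U, UG⟩ : G)⁻¹ * (⟨U', UG'⟩ : G) *
    (⟨π ⟨U', UG'⟩, hπG _⟩ : G)⁻¹
  have hh : π h = 1 := by
    show π (⟨π ⟨U, UG⟩, hπG _⟩ * (⟨U, UG⟩ : G)⁻¹ * (⟨U', UG'⟩ : G) *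
      (⟨π ⟨U', UG'⟩, hπG _⟩ : G)⁻¹) = 1
    rw [map_mul, map_mul, map_mul, map_inv, map_inv, ππ, ππ]
    group
  have hhv : (h : (Matrix (Fin m) (Fin m) F)ˣ).val i l = 0 := by
    have h2 := hπ h
    rw [hh] at h2
    have h3 := congrFun (congrFun h2 i) l
    rw [kp_of q (Or.inr hq), Units.val_one, Matrix.one_apply_ne hil.ne] at h3
    exact h3.symm
  have hhW : ((h : (Matrix (Fin m) (Fin m) F)ˣ)) = W * U⁻¹ * U' * W'⁻¹ := by
    rw [WU, WU']
    rfl
  rw [hhW] at hhv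
  exact hhv

/-- products of reductions which are inverse to each other -/
theorem redInv (S : Scale) {m : ℕ} (u w : ℕ → Matrix (Fin m) (Fin m) ℝ)
    (h : S.MdM u) (h' : S.MdM w) (e : ∀ s, u s * w s = 1) : S.redM u * S.redM w = 1 := by
  obtain ⟨rMul, -, rConst, -, -⟩ := Pool.Agent.QSX.H99.rdm S m
  rw [← (rMul _ _ h h').2]
  have h2 : (fun s => u s * w s) = fun _ => 1 := funext e
  rw [h2, (rConst 1).2, Matrix.map_one _ (map_zero _) (map_one _)]

/-- the data of one sequence -/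
theorem one_seq (S : Scale) (Y : Dat) (V : Type) [NormedAddCommGroup V] [NormedSpace ℝ V]
    (P : V →ₗ[ℝ] (Fin Y.m → ℝ)) (K : Set V) (h0 : 0 ∈ K)
    (hc : ∀ a ∈ K, ∀ c : ℝ, 0 ≤ c → c • a ∈ K) (g : ℕ → UX Y)
    (hg : ∀ s, ∃ y ∈ Y.n, g s = ue y)
    (hcl : S.Cl P ({a | ‖a‖ ≤ 1} ∩ K) (fun s => (g s : Matrix (Fin Y.m) (Fin Y.m) ℝ))) :
    S.MdM (fun s => (g s : Matrix (Fin Y.m) (Fin Y.m) ℝ)) ∧
    S.MdM (fun s => (((g s)⁻¹ : UX Y) : Matrix (Fin Y.m) (Fin Y.m) ℝ)) ∧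
    S.MdM (fun s => ((ue (part P (fun _ => 0) (mlog (g s : Matrix (Fin Y.m) (Fin Y.m) ℝ))) :
      UX Y) : Matrix (Fin Y.m) (Fin Y.m) ℝ)) ∧
    S.MdM (fun s => (((ue (part P (fun _ => 0) (mlog (g s : Matrix (Fin Y.m) (Fin Y.m) ℝ))))⁻¹ :
      UX Y) : Matrix (Fin Y.m) (Fin Y.m) ℝ)) ∧
    Sp (fun i k => ∀ a ∈ K, 0 ≤ P a i - P a k)
      (S.redM (fun s => (g s : Matrix (Fin Y.m) (Fin Y.m) ℝ))) ∧
    S.redM (fun s => ((ue (part P (fun _ => 0) (mlog (g s : Matrix (Fin Y.m) (Fin Y.m) ℝ))) :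
      UX Y) : Matrix (Fin Y.m) (Fin Y.m) ℝ)) =
      mexp (part P (fun _ => 0) (mlog (S.redM (fun s =>
        (g s : Matrix (Fin Y.m) (Fin Y.m) ℝ))))) ∧
    (∀ B : Set V, S.Cl P B (fun s =>
      ((ue (part P (fun _ => 0) (mlog (g s : Matrix (Fin Y.m) (Fin Y.m) ℝ))) : UX Y) :
        Matrix (Fin Y.m) (Fin Y.m) ℝ))) := by
  classical
  obtain ⟨rMul, -, rConst, rSmul, rZero⟩ := Pool.Agent.QSX.H99.rdm S Y.m
  have lgm := Pool.Agent.QSX.H28.lgm
  have rlg := Pool.Agent.QSX.H59.rlg Pool.Agent.QSX.H99.rdm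
  have nre := Pool.Agent.QSX.H77.nre Pool.Agent.QSX.H99.rdm
  have spt := Pool.Agent.QSX.H67.spt
  have hUU : ∀ s, UU (g s : Matrix (Fin Y.m) (Fin Y.m) ℝ) := by
    intro s
    obtain ⟨y, hy, e⟩ := hg s
    rw [e, ue_val (Y.su y hy)]
    exact ((lgm ℝ Y.m).1 y (Y.su y hy)).1
  have hx : ∀ s, SU (mlog (g s : Matrix (Fin Y.m) (Fin Y.m) ℝ)) := fun s =>
    ((lgm ℝ Y.m).2 _ (hUU s)).1
  have hN := nre S V Y.m P K h0 hc _ hUU hcl
  have hM := hN.1
  have hL := (rlg S Y.m _ hM).2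
  -- the inverse
  have hinv : ∀ s, (((g s)⁻¹ : UX Y) : Matrix (Fin Y.m) (Fin Y.m) ℝ) =
      mexp ((-1 : ℝ) • mlog (g s : Matrix (Fin Y.m) (Fin Y.m) ℝ)) := by
    intro s
    obtain ⟨y, hy, e⟩ := hg s
    rw [e, ue_inv_val (Y.su y hy), ue_val (Y.su y hy), ((lgm ℝ Y.m).1 y (Y.su y hy)).2]
    congr 1
    rw [neg_one_smul]
  have hMi : S.MdM (fun s => (((g s)⁻¹ : UX Y) : Matrix (Fin Y.m) (Fin Y.m) ℝ)) := by
    have h1 := (rlg S Y.m _ (rSmul (-1) _ hL.1).1).1.1
    have h2 : (fun s => (((g s)⁻¹ : UX Y) : Matrix (Fin Y.m) (Fin Y.m) ℝ)) =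
        fun s => mexp ((-1 : ℝ) • mlog (g s : Matrix (Fin Y.m) (Fin Y.m) ℝ)) := by
      funext s
      exact hinv s
    rw [h2]
    exact h1
  -- the part
  have hps : ∀ s, SU (part P (fun _ => 0) (mlog (g s : Matrix (Fin Y.m) (Fin Y.m) ℝ))) :=
    fun s => part_su P (hx s)
  have hMp : S.MdM (fun s => part P (fun _ => 0)
      (mlog (g s : Matrix (Fin Y.m) (Fin Y.m) ℝ))) := by
    intro i l
    by_cases h : ∀ a, P a i - P a l = 0
    · have h2 : (fun s => part P (fun _ => 0)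
          (mlog (g s : Matrix (Fin Y.m) (Fin Y.m) ℝ)) i l) =
          fun s => mlog (g s : Matrix (Fin Y.m) (Fin Y.m) ℝ) i l := by
        funext s
        exact part_of P _ h
      rw [h2]
      exact hL.1 i l
    · have h2 : (fun s => part P (fun _ => 0)
          (mlog (g s : Matrix (Fin Y.m) (Fin Y.m) ℝ)) i l) = 0 := by
        funext s
        exact part_not P _ h
      rw [h2]
      exact Scale.Sm.md (Scale.Sm.zero S)
  have hRp : S.redM (fun s => part P (fun _ => 0)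
      (mlog (g s : Matrix (Fin Y.m) (Fin Y.m) ℝ))) =
      part P (fun _ => 0) (S.redM (fun s => mlog (g s : Matrix (Fin Y.m) (Fin Y.m) ℝ))) := by
    ext i l
    by_cases h : ∀ a, P a i - P a l = 0
    · rw [part_of P _ h]
      show S.red _ = S.red _
      congr 1
      funext s
      exact part_of P _ h
    · rw [part_not P _ h, rZero _ hMp]
      have h2 : (fun s => part P (fun _ => 0)
          (mlog (g s : Matrix (Fin Y.m) (Fin Y.m) ℝ)) i l) = 0 := by
        funext s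
        exact part_not P _ h
      rw [h2]
      exact Scale.Sm.zero S
  have he := (rlg S Y.m _ hMp).1
  have hval : (fun s => ((ue (part P (fun _ => 0)
      (mlog (g s : Matrix (Fin Y.m) (Fin Y.m) ℝ))) : UX Y) : Matrix (Fin Y.m) (Fin Y.m) ℝ)) =
      fun s => mexp (part P (fun _ => 0) (mlog (g s : Matrix (Fin Y.m) (Fin Y.m) ℝ))) := by
    funext s
    exact ue_val (hps s)
  have hMe : S.MdM (fun s => ((ue (part P (fun _ => 0)
      (mlog (g s : Matrix (Fin Y.m) (Fin Y.m) ℝ))) : UX Y) :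
        Matrix (Fin Y.m) (Fin Y.m) ℝ)) := by
    rw [hval]
    exact he.1
  have hMei : S.MdM (fun s => (((ue (part P (fun _ => 0)
      (mlog (g s : Matrix (Fin Y.m) (Fin Y.m) ℝ))))⁻¹ : UX Y) :
        Matrix (Fin Y.m) (Fin Y.m) ℝ)) := by
    have h1 := (rlg S Y.m _ (rSmul (-1) _ hMp).1).1.1
    have h2 : (fun s => (((ue (part P (fun _ => 0)
      (mlog (g s : Matrix (Fin Y.m) (Fin Y.m) ℝ))))⁻¹ : UX Y) :
        Matrix (Fin Y.m) (Fin Y.m) ℝ)) =
        fun s => mexp ((-1 : ℝ) • part P (fun _ => 0)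
          (mlog (g s : Matrix (Fin Y.m) (Fin Y.m) ℝ))) := by
      funext s
      rw [ue_inv_val (hps s), neg_one_smul]
    rw [h2]
    exact h1
  refine ⟨hM, hMi, hMe, hMei, ⟨?_, hN.2⟩, ?_, ?_⟩
  · -- unitriangular
    have h1 := (rlg S Y.m _ hL.1).1
    have h2 : (fun s => mexp (mlog (g s : Matrix (Fin Y.m) (Fin Y.m) ℝ))) =
        fun s => (g s : Matrix (Fin Y.m) (Fin Y.m) ℝ) := by
      funext s
      exact ((lgm ℝ Y.m).2 _ (hUU s)).2
    rw [h2] at h1
    rw [h1.2]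
    refine ((lgm S.FF Y.m).1 _ ?_).1
    intro i j hij
    rw [rZero _ hL.1]
    have h3 : (fun s => mlog (g s : Matrix (Fin Y.m) (Fin Y.m) ℝ) i j) = 0 := by
      funext s
      exact hx s i j hij
    rw [h3]
    exact Scale.Sm.zero S
  · rw [hval, he.2, hRp, hL.2]
  · -- the class condition
    intro B ε hε
    let q : Fin Y.m → Fin Y.m → Prop := fun i k => ∀ a, P a i - P a k = 0
    have qtr : ∀ i j k, i < j → j < k → q i j → q j k → q i k := by
      intro i j k _ _ h1 h2 a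
      have := h1 a
      have := h2 a
      linarith
    have hall : ∀ᶠ s in (S.ω : Filter ℕ), ∀ i l, |((ue (part P (fun _ => 0)
        (mlog (g s : Matrix (Fin Y.m) (Fin Y.m) ℝ))) : UX Y) :
        Matrix (Fin Y.m) (Fin Y.m) ℝ) i l| ≤ Real.exp (ε * S.R s) := by
      rw [Filter.eventually_all]
      intro i
      rw [Filter.eventually_all]
      intro l
      exact hMe i l ε hε
    filter_upwards [hall] with s hs a _ i l hil
    by_cases h : ∀ a, P a i - P a l = 0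
    · rw [h a, zero_add, mul_comm]
      exact hs i l
    · have h1 : Sp q (mexp (part P (fun _ => 0)
          (mlog (g s : Matrix (Fin Y.m) (Fin Y.m) ℝ)))) := by
        refine (spt ℝ Y.m q qtr).2.1 _ (hps s) ?_
        intro i l _ hne
        by_contra hq
        exact hne (part_not P _ hq)
      have h2 : ((ue (part P (fun _ => 0)
        (mlog (g s : Matrix (Fin Y.m) (Fin Y.m) ℝ))) : UX Y) :
        Matrix (Fin Y.m) (Fin Y.m) ℝ) i l = 0 := by
        rw [ue_val (hps s)]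
        by_contra hne
        exact h (h1.2 i l hil hne)
      show |((ue (part P (fun _ => 0)
        (mlog (g s : Matrix (Fin Y.m) (Fin Y.m) ℝ))) : UX Y) :
        Matrix (Fin Y.m) (Fin Y.m) ℝ) i l| ≤ _
      rw [h2, abs_zero]
      exact (Real.exp_pos _).le

theorem gze : GzeStmt := by
  classical
  intro S Y V _ _ _ P hP K h0 hc hK g g' hg hg' hcl hcl'
  obtain ⟨gM, gMi, pM, pMi, gSp, gR, gC⟩ := one_seq S Y V P K h0 hc g hg hcl
  obtain ⟨gM', gMi', pM', pMi', gSp', gR', gC'⟩ := one_seq S Y V P K h0 hc g' hg' hcl'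
  refine ⟨gC, ?_⟩
  intro i l hil hq
  obtain ⟨rMul, -, rConst, rSmul, rZero⟩ := Pool.Agent.QSX.H99.rdm S Y.m
  let r : Fin Y.m → Fin Y.m → Prop := fun i k => ∀ a ∈ K, 0 ≤ P a i - P a k
  let q : Fin Y.m → Fin Y.m → Prop := fun i k => ∀ a, P a i - P a k = 0
  have rtr : ∀ i j k, i < j → j < k → r i j → r j k → r i k := by
    intro i j k _ _ h1 h2 a ha
    have := h1 a ha
    have := h2 a ha
    linarith
  have face : ∀ i j k, i < j → j < k → r i j → r j k → (q i k ↔ q i j ∧ q j k) := by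
    intro i j k _ _ h1 h2
    constructor
    · intro h
      have e1 : ∀ a ∈ K, ((LinearMap.proj i ∘ₗ P) - (LinearMap.proj j ∘ₗ P)) a = 0 := by
        intro a ha
        have := h1 a ha
        have := h2 a ha
        have := h a
        show P a i - P a j = 0
        linarith
      have e2 : ∀ a ∈ K, ((LinearMap.proj j ∘ₗ P) - (LinearMap.proj k ∘ₗ P)) a = 0 := by
        intro a ha
        have := h1 a ha
        have := h2 a ha
        have := h a
        show P a j - P a k = 0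
        linarith
      exact ⟨fun a => LinearMap.congr_fun (hK _ e1) a, fun a => LinearMap.congr_fun (hK _ e2) a⟩
    · rintro ⟨h3, h4⟩ a
      have := h3 a
      have := h4 a
      linarith
  -- the sequence
  have m1 := rMul _ _ pM gMi
  have m2 := rMul _ _ m1.1 gM'
  have m3 := rMul _ _ m2.1 pMi'
  have hseq : (fun s => (((g s * (ue (part P (fun _ => 0) (mlog (g s :
      Matrix (Fin Y.m) (Fin Y.m) ℝ))))⁻¹)⁻¹ *
        (g' s * (ue (part P (fun _ => 0) (mlog (g' s : Matrix (Fin Y.m) (Fin Y.m) ℝ))))⁻¹) :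
          UX Y) : Matrix (Fin Y.m) (Fin Y.m) ℝ)) =
      fun s => ((ue (part P (fun _ => 0) (mlog (g s : Matrix (Fin Y.m) (Fin Y.m) ℝ))) : UX Y) :
        Matrix (Fin Y.m) (Fin Y.m) ℝ) * (((g s)⁻¹ : UX Y) : Matrix (Fin Y.m) (Fin Y.m) ℝ) *
        (g' s : Matrix (Fin Y.m) (Fin Y.m) ℝ) *
        (((ue (part P (fun _ => 0) (mlog (g' s : Matrix (Fin Y.m) (Fin Y.m) ℝ))))⁻¹ : UX Y) :
          Matrix (Fin Y.m) (Fin Y.m) ℝ) := by
    funext s
    rw [← Units.val_mul, ← Units.val_mul, ← Units.val_mul]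
    congr 1
    group
  have hMfin : S.MdM (fun s => (((g s * (ue (part P (fun _ => 0) (mlog (g s :
      Matrix (Fin Y.m) (Fin Y.m) ℝ))))⁻¹)⁻¹ *
        (g' s * (ue (part P (fun _ => 0) (mlog (g' s : Matrix (Fin Y.m) (Fin Y.m) ℝ))))⁻¹) :
          UX Y) : Matrix (Fin Y.m) (Fin Y.m) ℝ)) := by
    rw [hseq]
    exact m3.1
  refine (rZero _ hMfin i l).1 ?_
  rw [hseq, m3.2, m2.2, m1.2]
  refine alg r q rtr face _ _ _ _ _ _ _ _
    (redInv S _ _ gM gMi fun s => Units.mul_inv (g s))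
    (redInv S _ _ gMi gM fun s => Units.inv_mul (g s))
    (redInv S _ _ gM' gMi' fun s => Units.mul_inv (g' s))
    (redInv S _ _ gMi' gM' fun s => Units.inv_mul (g' s))
    (redInv S _ _ pM pMi fun s => Units.mul_inv _)
    (redInv S _ _ pMi pM fun s => Units.inv_mul _)
    (redInv S _ _ pM' pMi' fun s => Units.mul_inv _)
    (redInv S _ _ pMi' pM' fun s => Units.inv_mul _)
    gSp gSp' ?_ ?_ i l hil hq
  · rw [gR]
    exact congrArg mexp (kp_part P _).symm
  · rw [gR']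
    exact congrArg mexp (kp_part P _).symm

end Pool.Agent.QSN.H47
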